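import Mathlib
import Pool.Agent.L0h32.UZ.Stm

set_option autoImplicit false
set_option linter.all false

/-! PRB: a finite random computation in which every configuration leads to an answer ends with
probability one. -/

namespace Pool.Agent.L0h61.UZ

open Relation Filter Topology
open Pool.Agent.H630R2.LA (LimAut Sym Cfg Step init initTape WS lrel bitS ix nr Ann keep)
open Pool.Agent.L0h32.UX
open Pool.Agent.L0h32.UZ

section absorb

variable {X : Type} (R : X → X → Prop) (E : X → Prop) (S : Set X) (p : ℕ → X → ℝ)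

theorem bounds (hS : S.Finite) (hcl : ∀ c ∈ S, ∀ c', R c c' → c' ∈ S)
    (h0 : ∀ c, E c → ∀ T, p T c = 1) (h0' : ∀ c, ¬ E c → p 0 c = 0)
    (h1 : ∀ c T, ¬ E c → p (T + 1) c = (∑ᶠ c' ∈ {c' | R c c'}, p T c') /
      (({c' | R c c'} : Set X).ncard : ℝ)) (T : ℕ) :
    ∀ c ∈ S, 0 ≤ p T c ∧ p T c ≤ 1 := by
  induction T with
  | zero =>
    intro c hc
    by_cases hE : E c
    · rw [h0 c hE]
      norm_num
    · rw [h0' c hE]
      norm_num
  | succ T ih =>
    intro c hc
    by_cases hE : E c
    · rw [h0 c hE]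
      norm_num
    · have hfin : ({c' | R c c'} : Set X).Finite := hS.subset (hcl c hc)
      rw [h1 c T hE, finsum_mem_eq_finite_toFinset_sum _ hfin, Set.ncard_eq_toFinset_card _ hfin]
      have hb : ∀ x ∈ hfin.toFinset, 0 ≤ p T x ∧ p T x ≤ 1 := by
        intro x hx
        rw [Set.Finite.mem_toFinset] at hx
        exact ih x (hcl c hc x hx)
      refine ⟨div_nonneg (Finset.sum_nonneg fun x hx => (hb x hx).1) (Nat.cast_nonneg _), ?_⟩
      apply div_le_one_of_le₀ _ (Nat.cast_nonneg _)
      calc ∑ x ∈ hfin.toFinset, p T x ≤ ∑ x ∈ hfin.toFinset, (1 : ℝ) :=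
            Finset.sum_le_sum fun x hx => (hb x hx).2
        _ = _ := by simp

theorem mono (hS : S.Finite) (hcl : ∀ c ∈ S, ∀ c', R c c' → c' ∈ S)
    (h0 : ∀ c, E c → ∀ T, p T c = 1) (h0' : ∀ c, ¬ E c → p 0 c = 0)
    (h1 : ∀ c T, ¬ E c → p (T + 1) c = (∑ᶠ c' ∈ {c' | R c c'}, p T c') /
      (({c' | R c c'} : Set X).ncard : ℝ)) (T : ℕ) :
    ∀ c ∈ S, p T c ≤ p (T + 1) c := by
  induction T with
  | zero =>
    intro c hc
    by_cases hE : E c
    · rw [h0 c hE, h0 c hE]
    · rw [h0' c hE]
      exact (bounds R E S p hS hcl h0 h0' h1 1 c hc).1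
  | succ T ih =>
    intro c hc
    by_cases hE : E c
    · rw [h0 c hE, h0 c hE]
    · have hfin : ({c' | R c c'} : Set X).Finite := hS.subset (hcl c hc)
      rw [h1 c T hE, h1 c (T + 1) hE, finsum_mem_eq_finite_toFinset_sum _ hfin,
        finsum_mem_eq_finite_toFinset_sum _ hfin]
      apply div_le_div_of_nonneg_right _ (Nat.cast_nonneg _)
      refine Finset.sum_le_sum fun x hx => ?_
      rw [Set.Finite.mem_toFinset] at hx
      exact ih x (hcl c hc x hx)

theorem absorb (hS : S.Finite) (hcl : ∀ c ∈ S, ∀ c', R c c' → c' ∈ S)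
    (hE : ∀ c ∈ S, ∃ c', ReflTransGen R c c' ∧ E c')
    (h0 : ∀ c, E c → ∀ T, p T c = 1) (h0' : ∀ c, ¬ E c → p 0 c = 0)
    (h1 : ∀ c T, ¬ E c → p (T + 1) c = (∑ᶠ c' ∈ {c' | R c c'}, p T c') /
      (({c' | R c c'} : Set X).ncard : ℝ)) :
    ∀ c ∈ S, Tendsto (fun T => p T c) atTop (𝓝 1) := by
  have hb := bounds R E S p hS hcl h0 h0' h1
  have hm := mono R E S p hS hcl h0 h0' h1
  obtain ⟨L, hL⟩ : ∃ L : X → ℝ, ∀ c ∈ S, Tendsto (fun T => p T c) atTop (𝓝 (L c)) := by
    refine ⟨fun c => ⨆ T, p T c, fun c hc => ?_⟩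
    apply tendsto_atTop_ciSup
    · exact monotone_nat_of_le_succ fun T => hm T c hc
    · refine ⟨1, ?_⟩
      rintro _ ⟨T, rfl⟩
      exact (hb T c hc).2
  have hL1 : ∀ c ∈ S, L c ≤ 1 := fun c hc =>
    le_of_tendsto' (hL c hc) fun T => (hb T c hc).2
  have hLE : ∀ c ∈ S, E c → L c = 1 := by
    intro c hc hEc
    have h2 := hL c hc
    have h3 : (fun T => p T c) = fun _ => (1 : ℝ) := funext fun T => h0 c hEc T
    rw [h3] at h2
    exact (tendsto_nhds_unique h2 tendsto_const_nhds)
  have hne : ∀ c ∈ S, ¬ E c → ∃ c', R c c' := by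
    intro c hc hEc
    obtain ⟨c', h2, h3⟩ := hE c hc
    rcases ReflTransGen.cases_head h2 with h4 | ⟨x, h4, -⟩
    · subst h4
      exact absurd h3 hEc
    · exact ⟨x, h4⟩
  have hav : ∀ c ∈ S, ¬ E c → (∀ x, R c x → L c ≤ L x) → ∀ x, R c x → L x = L c := by
    intro c hc hEc hmin x hx
    have hfin : ({c' | R c c'} : Set X).Finite := hS.subset (hcl c hc)
    have h2 : Tendsto (fun T => p (T + 1) c) atTop (𝓝 (L c)) :=
      (tendsto_add_atTop_iff_nat 1).2 (hL c hc)
    have h3 : (fun T => p (T + 1) c) =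
        fun T => (∑ x ∈ hfin.toFinset, p T x) / (hfin.toFinset.card : ℝ) := by
      funext T
      rw [h1 c T hEc, finsum_mem_eq_finite_toFinset_sum _ hfin, Set.ncard_eq_toFinset_card _ hfin]
    rw [h3] at h2
    have h4 : Tendsto (fun T => (∑ x ∈ hfin.toFinset, p T x) / (hfin.toFinset.card : ℝ)) atTop
        (𝓝 ((∑ x ∈ hfin.toFinset, L x) / (hfin.toFinset.card : ℝ))) := by
      apply Tendsto.div_const
      apply tendsto_finsetSum
      intro x hx
      rw [Set.Finite.mem_toFinset] at hx
      exact hL x (hcl c hc x hx)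
    have h5 := tendsto_nhds_unique h2 h4
    have hpos : (0 : ℝ) < hfin.toFinset.card := by
      have : 0 < hfin.toFinset.card := Finset.card_pos.2 ⟨x, by
        rw [Set.Finite.mem_toFinset]
        exact hx⟩
      exact_mod_cast this
    rw [eq_div_iff hpos.ne'] at h5
    have h6 : ∑ x ∈ hfin.toFinset, (L x - L c) = 0 := by
      rw [Finset.sum_sub_distrib, ← h5, Finset.sum_const, nsmul_eq_mul]
      ring
    have h7 : ∀ x ∈ hfin.toFinset, 0 ≤ L x - L c := by
      intro x hx
      rw [Set.Finite.mem_toFinset] at hx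
      have := hmin x hx
      linarith
    have h8 := (Finset.sum_eq_zero_iff_of_nonneg h7).1 h6 x (by
      rw [Set.Finite.mem_toFinset]
      exact hx)
    linarith
  intro c hc
  obtain ⟨m, hmS, hmin⟩ := Set.exists_min_image S L hS ⟨c, hc⟩
  have hm1 : L m = 1 := by
    by_contra hcon
    have hall : ∀ x, ReflTransGen R m x → x ∈ S ∧ L x = L m := by
      intro x hx
      induction hx with
      | refl => exact ⟨hmS, rfl⟩
      | @tail y z hy hyz ih =>
        obtain ⟨hyS, hyL⟩ := ih
        have hzS := hcl y hyS z hyz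
        have hyE : ¬ E y := by
          intro h2
          apply hcon
          rw [← hyL]
          exact hLE y hyS h2
        have h3 := hav y hyS hyE (fun x hx => by
          rw [hyL]
          exact hmin x (hcl y hyS x hx)) z hyz
        exact ⟨hzS, h3.trans hyL⟩
    obtain ⟨x, hx, hxE⟩ := hE m hmS
    obtain ⟨hxS, hxL⟩ := hall x hx
    apply hcon
    rw [← hxL]
    exact hLE x hxS hxE
  have h2 : L c = 1 := le_antisymm (hL1 c hc) (by
    rw [← hm1]
    exact hmin c hc)
  rw [← h2]
  exact hL c hc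

end absorb

/-- the reachable configurations are finitely many -/
theorem reach_finite {A : Type} (strict : Prop) (M : LimAut A) (w : List A) :
    {c : Cfg M | ReflTransGen (Step strict w.length) (init M w) c}.Finite := by
  haveI := M.finQ
  haveI := M.finW
  haveI : Finite (Sym M.W) := by
    have : Function.Surjective (fun o : Option (Option M.W) => match o with
      | none => (Sym.lm : Sym M.W)
      | some none => Sym.rm
      | some (some b) => Sym.sym b) := by
      intro σ
      cases σ with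
      | lm => exact ⟨none, rfl⟩
      | rm => exact ⟨some none, rfl⟩
      | sym b => exact ⟨some (some b), rfl⟩
    exact Finite.of_surjective _ this
  set n := w.length with hn
  have hinv : ∀ c : Cfg M, ReflTransGen (Step strict n) (init M w) c →
      c.pos ≤ n + 2 ∧ (∀ i, n + 1 < i → c.tape i = initTape M w i) ∧ ∀ i ∈ c.seen, i ≤ n + 1 := by
    intro c hc
    induction hc with
    | refl =>
      refine ⟨?_, fun i _ => rfl, fun i hi => ?_⟩
      · show 1 ≤ n + 2
        omega
      · exact absurd hi (Set.notMem_empty i)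
    | @tail c c' _ hs ih =>
      obtain ⟨h1, h2, h3⟩ := ih
      obtain ⟨hp, q, b, d, hδ, hst, hq, ht1, ht2, hse, hd1, hd2⟩ := hs
      refine ⟨?_, ?_, ?_⟩
      · cases d with
        | true =>
          have := hd1 rfl
          omega
        | false =>
          have := hd2 rfl
          omega
      · intro i hi
        by_cases hc : c.pos ∈ c.seen
        · rw [ht1 hc]
          exact h2 i hi
        · rw [ht2 hc, Function.update_of_ne (by omega)]
          exact h2 i hi
      · intro i hi
        rw [hse] at hi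
        rcases hi with h | h
        · rw [h]
          exact hp
        · exact h3 i h
  let g : M.Q × Fin (n + 3) × (Fin (n + 2) → Sym M.W) × Set (Fin (n + 2)) → Cfg M := fun x =>
    ⟨x.1, x.2.1, fun i => if h : i < n + 2 then x.2.2.1 ⟨i, h⟩ else initTape M w i,
      {i | ∃ h : i < n + 2, (⟨i, h⟩ : Fin (n + 2)) ∈ x.2.2.2}⟩
  refine (Set.finite_range g).subset ?_
  intro c hc
  obtain ⟨h1, h2, h3⟩ := hinv c hc
  refine ⟨(c.state, ⟨c.pos, by omega⟩, fun i => c.tape i, {i | (i : ℕ) ∈ c.seen}), ?_⟩
  obtain ⟨q, x, τ, s⟩ := c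
  simp only [g, Cfg.mk.injEq, true_and]
  refine ⟨?_, ?_⟩
  · funext i
    split_ifs with h
    · rfl
    · exact (h2 i (by omega)).symm
  · ext i
    simp only [Set.mem_setOf_eq]
    constructor
    · rintro ⟨_, h⟩
      exact h
    · intro h
      have := h3 i h
      exact ⟨by omega, h⟩

theorem t_PRB : S_PRB := by
  intro A _ strict M G w hE
  refine absorb (Step strict w.length) (Ended M G w.length)
    {c : Cfg M | ReflTransGen (Step strict w.length) (init M w) c}
    (fun T c => pEnd strict M G w.length T c) (reach_finite strict M w) ?_ ?_ ?_ ?_ ?_ (init M w)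
    ReflTransGen.refl
  · intro c hc c' h
    exact ReflTransGen.tail hc h
  · intro c hc
    exact hE c hc
  · intro c hc T
    cases T with
    | zero =>
      show pEnd strict M G w.length 0 c = 1
      unfold pEnd
      rw [if_pos hc]
    | succ T =>
      show pEnd strict M G w.length (T + 1) c = 1
      unfold pEnd
      rw [if_pos hc]
  · intro c hc
    show pEnd strict M G w.length 0 c = 0
    unfold pEnd
    rw [if_neg hc]
  · intro c T hc
    show pEnd strict M G w.length (T + 1) c = _
    rw [pEnd, if_neg hc]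
    rfl

end Pool.Agent.L0h61.UZ
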